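import Pool.Agent.H72.HRA.Targets
import Pool.Agent.H90.HR.AN
import Pool.Agent.H72.BF.Targets

/-! The auxiliary polynomial, algebraic coefficients. -/

open MvPolynomial Module

namespace Pool.Agent.H69.HRA

open Pool.Agent.H72.HR Pool.Agent.H72.HRA Pool.Agent.H90.HR
open Pool.Agent.H72.BF (RP Gf AlgB)

section
variable {ρ τ : Type} [Fintype ρ] [Fintype τ] [DecidableEq ρ] [DecidableEq τ]

theorem val_sumC {n c h L T1 : ℕ} (hVAL : T_VALA) (lam : Fin n → ℂ) (q : Fin n → ρ → τ → ℤ)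
    (ν : Fin c → τ) (k : ρ → Fin c → ℂ) (E : Fin c → τ → ℂ) (p : Ux ρ τ h L T1 → ℤ)
    (s : ρ → ℤ) (l : List (ρ ⊕ τ)) :
    eval (pt kap (gam lam q s)) (l.foldr (fun a f => dv kap (omC ν k E a) f)
      (∑ u, (p u : ℂ) • bas u)) =
      vlC lam q ν k E p (fun i => l.count (Sum.inl i)) (fun a => l.count (Sum.inr a)) s := by
  rw [foldr_sum, map_sum, vlC]
  refine Finset.sum_congr rfl fun u _ => ?_
  rw [smul_eval, hVAL ρ τ c h L T1 ν k E u l (gam lam q s)]
  have e1 : ∑ a, ((u.2 a : ℕ) : ℂ) * gam lam q s (Sum.inr a) =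
      ∑ i, (s i : ℂ) * th lam q u i := by
    simp only [gam, Sum.elim_inr, th, Finset.mul_sum]
    rw [Finset.sum_comm]
    refine Finset.sum_congr rfl fun i _ => Finset.sum_congr rfl fun a _ => by ring
  rw [e1]
  simp only [gam, Sum.elim_inl]
  ring

end

theorem algB_mono {δ : ℕ} {A A' : ℝ} {x : ℂ} (h : AlgB δ A x) (hA : A ≤ A') : AlgB δ A' x := by
  obtain ⟨p, h1, h2, h3, h4⟩ := h
  exact ⟨p, h1, h2, fun i => (h3 i).trans hA, h4⟩

/-- the size of the algebraic coefficients -/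
theorem algB_norm (hROOT : Pool.Agent.H72.BF.T_ROOT) {δ h : ℕ} {C0 : ℝ} {x : ℂ} (hh : 1 ≤ h)
    (hx : AlgB δ (Real.exp (C0 * h)) x) : ‖x‖ ≤ Real.exp ((max C0 0 + 1) * h) := by
  have hh' : (1 : ℝ) ≤ h := by exact_mod_cast hh
  have h1 : Real.exp (C0 * h) ≤ Real.exp (max C0 0 * h) := by
    apply Real.exp_le_exp.2
    exact mul_le_mul_of_nonneg_right (le_max_left _ _) (by linarith)
  have h2 : 1 ≤ Real.exp (max C0 0 * h) := by
    apply Real.one_le_exp
    exact mul_nonneg (le_max_right _ _) (by linarith)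
  have h3 := (hROOT δ _ x h2 (algB_mono hx h1)).1
  have h4 : (2 : ℝ) ≤ Real.exp h := by
    have := Real.add_one_le_exp (h : ℝ)
    linarith
  have h5 : Real.exp ((max C0 0 + 1) * h) = Real.exp (max C0 0 * h) * Real.exp h := by
    rw [← Real.exp_add]
    congr 1
    ring
  rw [h5]
  nlinarith

theorem ana (hROOT : Pool.Agent.H72.BF.T_ROOT) (hPIG : T_PIG) (hVAL : T_VALA) (hLIB : T_LIB)
    (hLVL : T_LVLA) (hCFU : T_CFUA) (hSML : T_SMLA) : T_ANA := by
  intro n lam hlam ρ τ _ _ _ _ c w δ q C0 A B Q hwc hAQ hB1 hBQ hpar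
  obtain ⟨k0, c0, hc0, hLVL⟩ := hLVL n lam hlam ρ τ c δ q C0
  obtain ⟨c1, hc1, hCFU⟩ := hCFU n lam ρ τ c w q (max C0 0 + 1)
  obtain ⟨c2, hc2, hSML⟩ := hSML n lam ρ τ c w q (max C0 0 + 1)
  obtain ⟨gL, hLVL⟩ := hLVL A B Q hAQ hB1 hBQ
  obtain ⟨gC, hCFU⟩ := hCFU A B Q hAQ hB1 hBQ
  obtain ⟨gS, hSML⟩ := hSML A B Q hAQ hB1 hBQ
  set m : ℝ := (Fintype.card ρ : ℝ) + Fintype.card τ + 2 with hm
  have hm0 : 0 ≤ m := by positivity
  set K : ℕ := 2 * (k0 + 1) with hK
  set x1 : ℝ := 3 * m + c1 + 2 * c0 + 2 * c2 + 4 with hx1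
  have hx10 : 0 ≤ x1 := by positivity
  obtain ⟨X, hX⟩ := exists_nat_ge ((m + x1 + c1) / 2 + c0 + c2 + 2)
  have hX0 : 0 < X := by
    have : (0 : ℝ) < X := lt_of_lt_of_le (by positivity) hX
    exact_mod_cast this
  refine ⟨max (max gL gC) (max gS (2 * (K + 1) * (2 ^ Fintype.card τ * X ^ Fintype.card ρ) + 1)),
    fun g hg => ?_⟩
  have hgL : gL ≤ g := le_trans (le_trans (le_max_left _ _) (le_max_left _ _)) hg
  have hgC : gC ≤ g := le_trans (le_trans (le_max_right _ _) (le_max_left _ _)) hg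
  have hgS : gS ≤ g := le_trans (le_trans (le_max_left _ _) (le_max_right _ _)) hg
  have hgK : 2 * (K + 1) * (2 ^ Fintype.card τ * X ^ Fintype.card ρ) + 1 ≤ g :=
    le_trans (le_trans (le_max_right _ _) (le_max_right _ _)) hg
  have hg1 : 1 ≤ g := by omega
  obtain ⟨hL, hLVL⟩ := hLVL g hgL
  obtain ⟨hC, hCFU⟩ := hCFU g hgC
  obtain ⟨hS, hSML⟩ := hSML g hgS
  refine ⟨X * g ^ Q, max (max hL hC) (max hS 1), fun h hh => ?_⟩
  have hhL : hL ≤ h := le_trans (le_trans (le_max_left _ _) (le_max_left _ _)) hh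
  have hhC : hC ≤ h := le_trans (le_trans (le_max_right _ _) (le_max_left _ _)) hh
  have hhS : hS ≤ h := le_trans (le_trans (le_max_left _ _) (le_max_right _ _)) hh
  have hh1 : 1 ≤ h := le_trans (le_trans (le_max_right _ _) (le_max_right _ _)) hh
  intro ν k E hδ hk hE I b hb hclose
  have hk' : ∀ i l, ‖k i l‖ ≤ Real.exp ((max C0 0 + 1) * h) := fun i l =>
    algB_norm hROOT hh1 (hk i l)
  have hE' : ∀ l a, ‖E l a‖ ≤ Real.exp ((max C0 0 + 1) * h) := fun l a =>
    algB_norm hROOT hh1 (hE l a)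
  have hb' : ∀ i j, ‖b i j‖ ≤ Real.exp ((max C0 0 + 1) * h) := by
    intro i j
    refine (hb i j).trans (Real.exp_le_exp.2 ?_)
    refine mul_le_mul_of_nonneg_right ?_ (Nat.cast_nonneg h)
    have := le_max_left C0 0
    linarith
  replace hLVL := hLVL h hhL ν k E hk hE
  replace hCFU := hCFU h hhC ν k E hk' hE' I
  replace hSML := hSML h hhS ν k E hδ hk' hE' I b (Real.exp (-(X * (h * g ^ Q)))) hb'
    (Real.exp_pos _).le
  set N : ℝ := (h : ℝ) * (g : ℝ) ^ Q with hN
  have hgQ : 1 ≤ g ^ Q := Nat.one_le_pow _ _ hg1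
  have hN1 : 1 ≤ N := by
    have h1 : 1 ≤ h * g ^ Q := Nat.mul_le_mul hh1 hgQ |>.trans' (by norm_num)
    rw [hN]
    exact_mod_cast h1
  replace hSML := hSML (by
    rw [Real.exp_le_one_iff]
    have : (0 : ℝ) ≤ X * N := by positivity
    linarith) (fun i l => by
      refine (hclose i l).trans (le_of_eq ?_)
      rw [hN]; congr 1; ring)
  have hν : Function.Injective ν := by
    intro l l' hll
    by_contra hne
    have h1 := hδ l l'
    rw [if_neg hne, ← hll, hδ l l, if_pos rfl] at h1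
    exact one_ne_zero h1
  have hcd : c ≤ Fintype.card τ := by
    simpa using Fintype.card_le_of_injective ν hν
  -- the constraints
  let off := {a : τ // a ∉ Finset.univ.image ν}
  let VV := (off → Fin (g ^ Q + 1)) × (Fin w → Fin (g ^ Q + 1)) × (ρ → Fin (X * (h * g ^ Q)))
  let ext : (off → Fin (g ^ Q + 1)) → τ → ℕ := fun y a =>
    if ha : a ∉ Finset.univ.image ν then (y ⟨a, ha⟩ : ℕ) else 0
  have hext : ∀ y a, ext y a ≤ g ^ Q := by
    intro y a
    simp only [ext]
    split_ifs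
    · exact Nat.zero_le _
    · exact Nat.lt_succ_iff.1 (y _).2
  let U := Ux ρ τ h (g ^ (Q - B)) (g ^ (Q - A))
  have hcardV : Fintype.card VV = (g ^ Q + 1) ^ (Fintype.card τ - c) *
      ((g ^ Q + 1) ^ w * (X * (h * g ^ Q)) ^ Fintype.card ρ) := by
    simp only [VV, Fintype.card_prod, Fintype.card_fun, Fintype.card_fin, off]
    rw [card_off ν hν]
  have hcardU : Fintype.card U = (h * g ^ (Q - B)) ^ Fintype.card ρ *
      (g ^ (Q - A)) ^ Fintype.card τ := card_Ux _ _ _
  have hcount : 2 * (K + 1) * Fintype.card VV ≤ Fintype.card U := by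
    rw [hcardV, hcardU]
    exact count_le _ _ c w A B Q g h X K hwc hcd hAQ hBQ hpar (by omega) hg1
  have hVpos : 0 < Fintype.card VV := by
    rw [hcardV]
    have : 0 < X * (h * g ^ Q) := Nat.mul_pos hX0 (Nat.mul_pos hh1 hgQ)
    positivity
  obtain ⟨p, Z, hp0, hZ1, hpZ, hZK, hsmall⟩ := hPIG U VV
    (fun v u => cfuC (4 * (h * g ^ A)) lam q ν k E I (ext v.1) (fun j => (v.2.1 j : ℕ))
      (fun i => (v.2.2 i : ℕ)) u) (Real.exp (c1 * N)) (Real.exp (x1 * N)) K
    (Real.one_le_exp (by positivity)) (Real.one_le_exp (by positivity)) (by omega) hVpos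
    (fun v u => hCFU _ _ _ u (hext v.1) (fun j => Nat.lt_succ_iff.1 (v.2.1 j).2)) hcount
  -- size of `U`
  have hUN : 4 * (Fintype.card U : ℝ) ≤ Real.exp (m * N) := by
    have h1 : (Fintype.card U : ℝ) ≤ N ^ (Fintype.card ρ + Fintype.card τ) := by
      rw [hcardU, pow_add]
      push_cast
      have hgr : (1 : ℝ) ≤ g := by exact_mod_cast hg1
      have hhr : (1 : ℝ) ≤ h := by exact_mod_cast hh1
      apply mul_le_mul
      · apply pow_le_pow_left₀ (by positivity)
        apply mul_le_mul_of_nonneg_left _ (by positivity)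
        exact pow_le_pow_right₀ hgr (Nat.sub_le _ _)
      · apply pow_le_pow_left₀ (by positivity)
        calc (g : ℝ) ^ (Q - A) ≤ (g : ℝ) ^ Q := pow_le_pow_right₀ hgr (Nat.sub_le _ _)
          _ ≤ h * (g : ℝ) ^ Q := le_mul_of_one_le_left (by positivity) hhr
      · positivity
      · positivity
    have h2 : N ^ (Fintype.card ρ + Fintype.card τ) ≤
        Real.exp (((Fintype.card ρ : ℝ) + Fintype.card τ) * N) := by
      have : ((Fintype.card ρ : ℝ) + Fintype.card τ) * N =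
          ((Fintype.card ρ + Fintype.card τ : ℕ) : ℝ) * N := by push_cast; ring
      rw [this, Real.exp_nat_mul]
      apply pow_le_pow_left₀ (by positivity)
      have := Real.add_one_le_exp N
      linarith
    have h3 : (4 : ℝ) ≤ Real.exp (2 * N) := by
      have h4 := Real.add_one_le_exp N
      have h5 : Real.exp (2 * N) = Real.exp N * Real.exp N := by
        rw [← Real.exp_add]; congr 1; ring
      rw [h5]
      nlinarith
    have h6 : Real.exp (m * N) = Real.exp (2 * N) *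
        Real.exp (((Fintype.card ρ : ℝ) + Fintype.card τ) * N) := by
      rw [← Real.exp_add]; congr 1; rw [hm]; ring
    rw [h6]
    exact mul_le_mul h3 (h1.trans h2) (by positivity) (by positivity)
  have hZ0 : 0 < Z := by linarith
  have hZK' : Z ^ (2 * (k0 + 1)) ≤ Real.exp ((m + x1 + c1) * N) := by
    refine hZK.trans ?_
    have e : Real.exp ((m + x1 + c1) * N) =
        Real.exp (m * N) * (Real.exp (x1 * N) * Real.exp (c1 * N)) := by
      rw [← Real.exp_add, ← Real.exp_add]; congr 1; ring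
    rw [e]
    exact mul_le_mul_of_nonneg_right hUN (by positivity)
  -- the values vanish
  have hvl : ∀ (x : ρ → ℕ) (y : τ → ℕ) (s : ρ → ℤ), ∑ i, x i + ∑ a, y a ≤ g ^ Q →
      (∀ i, 0 ≤ s i ∧ s i ≤ h * g ^ A) → vlC lam q ν k E p x y s = 0 := by
    intro x y s hxy hs
    by_contra hne
    have h1 := hLVL p Z hZ1 hpZ x y s hxy hs hne
    have h2 := hSML p Z (Real.exp (m * N) * Z / Real.exp (x1 * N)) X hZ1 (by positivity) hpZ
      (by
        intro y z x hy0 hyQ hzQ hxX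
        let v : VV := (fun a => ⟨y a.1, Nat.lt_succ_iff.2 (hyQ _)⟩,
          fun j => ⟨z j, Nat.lt_succ_iff.2 (hzQ j)⟩, fun i => ⟨x i, hxX i⟩)
        have hv : ext v.1 = y := by
          funext a
          simp only [ext, v]
          split_ifs with ha
          · obtain ⟨l, _, hl⟩ := Finset.mem_image.1 ha
            rw [← hl, hy0 l]
          · rfl
        have h3 := hsmall v
        rw [hv] at h3
        rw [le_div_iff₀ (Real.exp_pos _), mul_comm]
        refine le_trans (le_of_eq ?_) (h3.trans (mul_le_mul_of_nonneg_right hUN hZ0.le))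
        congr 2
        refine Finset.sum_congr rfl fun u _ => ?_
        rw [mul_comm]) x y s hxy hs
    exact fin_ineq k0 c0 c1 c2 m x1 X N Z _ hN1 hZ1 hZK' hx1 hX h2 h1
  obtain ⟨hbox, hind⟩ := hLIB ρ τ h (g ^ (Q - B)) (g ^ (Q - A)) hh1 (Nat.one_le_pow _ _ hg1)
    (Nat.one_le_pow _ _ hg1)
  refine ⟨∑ u, (p u : ℂ) • bas u, fun h0 => hp0 (hind p h0), ?_, ?_⟩
  · exact Submodule.sum_mem _ fun u _ => Submodule.smul_mem _ _ (hbox u)
  · intro s hs L hL
    rw [val_sumC hVAL]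
    apply hvl _ _ s _ hs
    rw [length_count]
    exact hL

end Pool.Agent.H69.HRA
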